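import Pool.Agent.Helper13.RG.Stmts
import Pool.Agent.Helper53.ZL.VEMB

/-!
# VOV: every embedding of a number field into `ℂ_p` induces a finite place
-/

set_option autoImplicit false

namespace Pool.Agent.Helper13.RG

open Pool.Agent.Helper14.BSC Pool.Agent.Helper13.ZL NumberField IsDedekindDomain

theorem vov_ne_bot {k : Type} [Field k] [NumberField k] {p : ℕ} [Fact p.Prime] (σ : k →+* ℂ_[p]) :
    vemb_ideal σ ≠ ⊥ := by
  intro h
  have h1 : ((p : ℕ) : 𝓞 k) ∈ vemb_ideal σ := by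
    rw [vemb_mem]
    have e2 : σ (((p : ℕ) : 𝓞 k) : k) = ((p : ℤ) : ℂ_[p]) := by simp
    rw [e2, vemb_int]
  rw [h, Ideal.mem_bot] at h1
  exact (Fact.out : p.Prime).ne_zero (by exact_mod_cast h1)

theorem st_VOV : ST_VOV := by
  intro k _ _ p _ σ
  let v : Pl k := ⟨vemb_ideal σ, vemb_prime σ, vov_ne_bot σ⟩
  refine ⟨v, ?_⟩
  have hint : ∀ x : 𝓞 k, x ∈ v.asIdeal ↔ ‖σ (x : k)‖ < 1 := fun x => vemb_mem σ x
  have hle : ∀ x : 𝓞 k, ‖σ (x : k)‖ ≤ 1 := fun x => vemb_le σ x
  -- elements of the valuation ring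
  have hone : ∀ x : k, v.valuation k x ≤ 1 → (‖σ x‖ ≤ 1 ∧ (‖σ x‖ < 1 ↔ v.valuation k x < 1)) := by
    intro x hx
    obtain ⟨n, d, hnd⟩ := v.exists_primeCompl_mul_eq_of_integer x hx
    have hd : ‖σ ((d : 𝓞 k) : k)‖ = 1 := by
      have h1 := hle (d : 𝓞 k)
      have h2 : ¬ ‖σ ((d : 𝓞 k) : k)‖ < 1 := by
        rw [← hint]; exact d.2
      linarith
    have hdv : v.valuation k ((d : 𝓞 k) : k) = 1 := by
      have h1 : v.valuation k ((d : 𝓞 k) : k) ≤ 1 := v.valuation_le_one _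
      have h2 : ¬ v.valuation k ((d : 𝓞 k) : k) < 1 := by
        intro h
        exact d.2 ((v.valuation_lt_one_iff_mem _).1 h)
      exact le_antisymm h1 (not_lt.1 h2)
    have hs : ‖σ x‖ = ‖σ (n : k)‖ := by
      have h1 := congrArg (fun y => ‖σ y‖) hnd
      simp only [map_mul, norm_mul] at h1
      rw [← h1]
      change ‖σ x‖ = ‖σ x‖ * ‖σ ((d : 𝓞 k) : k)‖
      rw [hd, mul_one]
    have hv : v.valuation k x = v.valuation k (n : k) := by
      have h1 := congrArg (v.valuation k) hnd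
      rw [map_mul] at h1
      rw [← h1]
      change v.valuation k x = v.valuation k x * v.valuation k ((d : 𝓞 k) : k)
      rw [hdv, mul_one]
    rw [hs, hv]
    refine ⟨hle n, ?_⟩
    rw [v.valuation_lt_one_iff_mem, hint]
  intro x
  constructor
  · intro hx
    exact (hone x hx.le).2.2 hx
  · intro hx
    rcases le_or_gt (v.valuation k x) 1 with h1 | h1
    · exact (hone x h1).2.1 hx
    · exfalso
      have hx0 : x ≠ 0 := by
        rintro rfl
        rw [map_zero] at h1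
        exact absurd h1 (not_lt.2 zero_le_one)
      have h2 : v.valuation k x⁻¹ ≤ 1 := by
        rw [map_inv₀]
        exact inv_le_one_of_one_le₀ h1.le
      have h3 := (hone _ h2).1
      rw [map_inv₀, norm_inv] at h3
      have h4 : 0 < ‖σ x‖ := norm_pos_iff.2 ((map_ne_zero σ).2 hx0)
      have h5 : 1 < ‖σ x‖⁻¹ := (one_lt_inv₀ h4).2 hx
      linarith

end Pool.Agent.Helper13.RG
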